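import Pool.Agent.Q276.BA.Stm

/-!
# Project BA: the remaining properties of `Op` (job F3)
-/

set_option autoImplicit false

open MeasureTheory Set Filter Topology
open scoped BigOperators ENNReal SchwartzMap

namespace Pool.Agent.Q65.BA

open Pool.Agent.Q276.BA

lemma pr_add (m : ℕ) (k : ℤ) (f g : ℂ → ℂ) (z : ℂ) :
    pr m k (fun z => f z + g z) z = pr m k f z + pr m k g z := by
  simp only [pr, mul_add, Finset.sum_add_distrib]

lemma pr_smul (m : ℕ) (k : ℤ) (c : ℂ) (f : ℂ → ℂ) (z : ℂ) :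
    pr m k (fun z => c * f z) z = c * pr m k f z := by
  simp only [pr, Finset.mul_sum]
  refine Finset.sum_congr rfl fun j _ => ?_
  ring

lemma pr_meas (m : ℕ) (k : ℤ) {f : ℂ → ℂ} (hf : Measurable f) : Measurable (pr m k f) := by
  unfold pr
  refine Measurable.const_mul ?_ _
  refine Finset.measurable_sum _ fun j _ => ?_
  exact (hf.comp (measurable_const_mul _)).const_mul _

lemma pr_bound (m : ℕ) (k : ℤ) (C : ℝ) : ∃ C' : ℝ, 0 ≤ C' ∧ ∀ f : ℂ → ℂ, (∀ z, ‖f z‖ ≤ C) →
    ∀ z, ‖pr m k f z‖ ≤ C' := by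
  refine ⟨‖(1 / (m : ℂ))‖ * ∑ j ∈ Finset.range m,
    ‖Complex.exp (-(2 * (Real.pi : ℂ) * Complex.I * (j * k / m)))‖ * |C|, ?_, ?_⟩
  · positivity
  · intro f hf z
    unfold pr
    rw [norm_mul]
    refine mul_le_mul_of_nonneg_left ?_ (norm_nonneg _)
    refine (norm_sum_le _ _).trans (Finset.sum_le_sum fun j _ => ?_)
    rw [norm_mul]
    exact mul_le_mul_of_nonneg_left ((hf _).trans (le_abs_self C)) (norm_nonneg _)

lemma pr_tendsto (m : ℕ) (k : ℤ) {F : ℕ → ℂ → ℂ} {f : ℂ → ℂ}
    (h : ∀ z, Tendsto (fun i => F i z) atTop (𝓝 (f z))) (z : ℂ) :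
    Tendsto (fun i => pr m k (F i) z) atTop (𝓝 (pr m k f z)) := by
  unfold pr
  refine Tendsto.const_mul _ ?_
  refine tendsto_finsetSum _ fun j _ => ?_
  exact (h _).const_mul _

/-- joint measurability of the integrand -/
lemma joint_meas {q : ℝ → ℝ} (hq : Continuous q) {g : ℂ → ℂ} (hg : Measurable g) :
    Measurable (fun p : ℂ × ℝ => (q p.2 : ℂ) * g ((Real.sqrt p.2 : ℂ) * p.1)) := by
  refine Measurable.mul ?_ ?_
  · exact (Complex.measurable_ofReal.comp hq.measurable).comp measurable_snd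
  · refine hg.comp (Measurable.mul ?_ measurable_fst)
    exact (Complex.measurable_ofReal.comp Real.continuous_sqrt.measurable).comp measurable_snd

lemma int_meas {q : ℝ → ℝ} (hq : Continuous q) {g : ℂ → ℂ} (hg : Measurable g) (z : ℂ) :
    Measurable (fun v : ℝ => (q v : ℂ) * g ((Real.sqrt v : ℂ) * z)) :=
  (joint_meas hq hg).comp (measurable_const.prodMk measurable_id)

lemma intg {q : ℝ → ℝ} (hq : Continuous q) {g : ℂ → ℂ} (hg : Measurable g) {C : ℝ}
    (hC : ∀ z, ‖g z‖ ≤ C) (z : ℂ) :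
    IntervalIntegrable (fun v : ℝ => (q v : ℂ) * g ((Real.sqrt v : ℂ) * z)) volume 0 1 := by
  have h1 : IntervalIntegrable (fun v : ℝ => |q v| * C) volume 0 1 :=
    (hq.abs.mul continuous_const).intervalIntegrable 0 1
  refine h1.mono_fun (int_meas hq hg z).aestronglyMeasurable ?_
  refine Eventually.of_forall fun v => ?_
  have hC0 : 0 ≤ C := (norm_nonneg _).trans (hC 0)
  simp only [norm_mul, Complex.norm_real, Real.norm_eq_abs, abs_abs]
  refine mul_le_mul_of_nonneg_left ((hC _).trans (le_abs_self C)) (abs_nonneg _)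

lemma meas_int {q : ℝ → ℝ} (hq : Continuous q) {g : ℂ → ℂ} (hg : Measurable g) :
    Measurable (fun z : ℂ => ∫ v in (0 : ℝ)..1, (q v : ℂ) * g ((Real.sqrt v : ℂ) * z)) := by
  simp only [intervalIntegral.integral_of_le zero_le_one]
  exact (StronglyMeasurable.integral_prod_right
    (f := fun (z : ℂ) (v : ℝ) => (q v : ℂ) * g ((Real.sqrt v : ℂ) * z))
    (joint_meas hq hg).stronglyMeasurable).measurable

/-- linearity, measurability and bounded pointwise continuity of `AS` -/
theorem f3 : S_F3 := by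
  intro m S Q hQ
  refine ⟨?_, ?_, ?_, ?_⟩
  · rintro f g ⟨hf, Cf, hCf⟩ ⟨hg, Cg, hCg⟩
    funext z
    simp only [AS]
    have h : ∀ k ∈ S, ∫ v in (0 : ℝ)..1, (Q k v : ℂ) * pr m k (fun z => f z + g z) ((Real.sqrt v : ℂ) * z) =
        (∫ v in (0 : ℝ)..1, (Q k v : ℂ) * pr m k f ((Real.sqrt v : ℂ) * z)) +
        ∫ v in (0 : ℝ)..1, (Q k v : ℂ) * pr m k g ((Real.sqrt v : ℂ) * z) := by
      intro k hk
      obtain ⟨C1, -, hC1⟩ := pr_bound m k Cf
      obtain ⟨C2, -, hC2⟩ := pr_bound m k Cg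
      rw [← intervalIntegral.integral_add (intg (hQ k hk) (pr_meas m k hf) (hC1 f hCf) z)
        (intg (hQ k hk) (pr_meas m k hg) (hC2 g hCg) z)]
      refine intervalIntegral.integral_congr fun v _ => ?_
      simp only [pr_add, mul_add]
    rw [Finset.sum_congr rfl h, Finset.sum_add_distrib]
    ring
  · rintro c f -
    funext z
    simp only [AS]
    have h : ∀ k ∈ S, ∫ v in (0 : ℝ)..1, (Q k v : ℂ) * pr m k (fun z => c * f z) ((Real.sqrt v : ℂ) * z) =
        c * ∫ v in (0 : ℝ)..1, (Q k v : ℂ) * pr m k f ((Real.sqrt v : ℂ) * z) := by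
      intro k _
      rw [← intervalIntegral.integral_const_mul]
      refine intervalIntegral.integral_congr fun v _ => ?_
      simp only [pr_smul]
      ring
    rw [Finset.sum_congr rfl h, ← Finset.mul_sum]
    ring
  · rintro f ⟨hf, -⟩
    unfold AS
    refine hf.add (Finset.measurable_sum _ fun k hk => ?_)
    exact meas_int (hQ k hk) (pr_meas m k hf)
  · intro F f C hF hf hC ht z
    unfold AS
    refine (ht z).add (tendsto_finsetSum _ fun k hk => ?_)
    obtain ⟨C', hC'0, hC'⟩ := pr_bound m k C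
    refine intervalIntegral.tendsto_integral_filter_of_dominated_convergence (fun v => |Q k v| * C') ?_ ?_ ?_ ?_
    · exact Eventually.of_forall fun i => (int_meas (hQ k hk) (pr_meas m k (hF i)) z).aestronglyMeasurable
    · refine Eventually.of_forall fun i => Eventually.of_forall fun v _ => ?_
      rw [norm_mul, Complex.norm_real, Real.norm_eq_abs]
      exact mul_le_mul_of_nonneg_left (hC' (F i) (hC i) _) (abs_nonneg _)
    · exact ((hQ k hk).abs.mul continuous_const).intervalIntegrable 0 1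
    · exact Eventually.of_forall fun v _ => (pr_tendsto m k ht _).const_mul _

end Pool.Agent.Q65.BA
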