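import Pool.Agent.Q276.BA.Stm2

/-!
# Project BA: Bessel's inequality for the kernel (job N1)
-/

set_option autoImplicit false

open MeasureTheory Set Filter Topology
open scoped BigOperators ENNReal SchwartzMap

namespace Pool.Agent.Q65.BA

open Pool.Agent.Q276.BA

/-- the characters of the circle -/
noncomputable def EE (k : ℤ) (θ : ℝ) : ℂ := Complex.exp ((k : ℂ) * θ * Complex.I)

lemma EE_add (j k : ℤ) (θ : ℝ) : EE (j + k) θ = EE j θ * EE k θ := by
  unfold EE
  rw [← Complex.exp_add]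
  congr 1
  push_cast
  ring

lemma EE_norm (k : ℤ) (θ : ℝ) : ‖EE k θ‖ = 1 := by
  unfold EE
  have : (k : ℂ) * θ * Complex.I = (((k : ℝ) * θ : ℝ) : ℂ) * Complex.I := by push_cast; ring
  rw [this, Complex.norm_exp_ofReal_mul_I]

lemma EE_conj (k : ℤ) (θ : ℝ) : (starRingEnd ℂ) (EE k θ) = EE (-k) θ := by
  unfold EE
  rw [← Complex.exp_conj]
  congr 1
  simp only [map_mul, Complex.conj_ofReal, Complex.conj_I, Int.cast_neg]
  have : (starRingEnd ℂ) (k : ℂ) = (k : ℂ) := by
    simp
  rw [this]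
  ring

lemma EE_pow (k : ℤ) (m : ℕ) (θ : ℝ) : EE k θ ^ m = EE (m * k) θ := by
  unfold EE
  rw [← Complex.exp_nat_mul]
  congr 1
  push_cast
  ring

lemma EE_cont (k : ℤ) : Continuous (EE k) := by
  unfold EE
  fun_prop

lemma EE_int (j : ℤ) : ∫ θ in (0 : ℝ)..(2 * Real.pi), EE j θ =
    if j = 0 then ((2 * Real.pi : ℝ) : ℂ) else 0 := by
  unfold EE
  split_ifs with h
  · subst h
    simp
  · have hc : ((j : ℂ) * Complex.I) ≠ 0 := mul_ne_zero (by exact_mod_cast h) Complex.I_ne_zero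
    have h1 := integral_exp_mul_complex (a := 0) (b := 2 * Real.pi) hc
    have h2 : (fun θ : ℝ => Complex.exp ((j : ℂ) * θ * Complex.I)) =
        fun θ : ℝ => Complex.exp ((j : ℂ) * Complex.I * θ) := by
      funext θ
      congr 1
      ring
    rw [h2, h1]
    have h3 : (j : ℂ) * Complex.I * ((2 * Real.pi : ℝ) : ℂ) = (j : ℂ) * (2 * (Real.pi : ℂ) * Complex.I) := by
      push_cast
      ring
    rw [h3, Complex.exp_int_mul_two_pi_mul_I]
    simp

/-- Bessel's inequality on the circle -/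
lemma bessel (K : ℝ → ℂ) (hK : Continuous K) (S : Finset ℤ) (c : ℤ → ℝ)
    (h : ∀ k ∈ S, ∫ θ in (0 : ℝ)..(2 * Real.pi), K θ * EE k θ = ((2 * Real.pi * c k : ℝ) : ℂ)) :
    ∑ k ∈ S, c k ^ 2 ≤ (1 / (2 * Real.pi)) * ∫ θ in (0 : ℝ)..(2 * Real.pi), ‖K θ‖ ^ 2 := by
  set P : ℝ → ℂ := fun θ => ∑ k ∈ S, (c k : ℂ) * EE (-k) θ with hP
  set Pc : ℝ → ℂ := fun θ => ∑ k ∈ S, (c k : ℂ) * EE k θ with hPc
  have hPcont : Continuous P := continuous_finsetSum _ fun k _ => continuous_const.mul (EE_cont _)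
  have hPccont : Continuous Pc := continuous_finsetSum _ fun k _ => continuous_const.mul (EE_cont _)
  have hconj : ∀ θ, (starRingEnd ℂ) (P θ) = Pc θ := by
    intro θ
    simp only [hP, hPc, map_sum, map_mul, Complex.conj_ofReal, EE_conj, neg_neg]
  have hI : ∀ H : ℝ → ℂ, Continuous H →
      (∀ k ∈ S, ∫ θ in (0 : ℝ)..(2 * Real.pi), H θ * EE k θ = ((2 * Real.pi * c k : ℝ) : ℂ)) →
      ∫ θ in (0 : ℝ)..(2 * Real.pi), (H θ * Pc θ).re = 2 * Real.pi * ∑ k ∈ S, c k ^ 2 := by
    intro H hH hHk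
    have h1 : ∫ θ in (0 : ℝ)..(2 * Real.pi), H θ * Pc θ = ((2 * Real.pi * ∑ k ∈ S, c k ^ 2 : ℝ) : ℂ) := by
      have h2 : (fun θ => H θ * Pc θ) = fun θ => ∑ k ∈ S, (c k : ℂ) * (H θ * EE k θ) := by
        funext θ
        simp only [hPc, Finset.mul_sum]
        refine Finset.sum_congr rfl fun k _ => ?_
        ring
      rw [h2, intervalIntegral.integral_finsetSum]
      · have h3 : ∀ k ∈ S, ∫ θ in (0 : ℝ)..(2 * Real.pi), (c k : ℂ) * (H θ * EE k θ) =
            ((2 * Real.pi * c k ^ 2 : ℝ) : ℂ) := by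
          intro k hk
          rw [intervalIntegral.integral_const_mul, hHk k hk]
          push_cast
          ring
        rw [Finset.sum_congr rfl h3, Finset.mul_sum]
        push_cast
        rfl
      · intro k _
        exact (continuous_const.mul (hH.mul (EE_cont k))).intervalIntegrable _ _
    have h4 : ∫ θ in (0 : ℝ)..(2 * Real.pi), (H θ * Pc θ).re =
        (∫ θ in (0 : ℝ)..(2 * Real.pi), H θ * Pc θ).re :=
      Complex.reCLM.intervalIntegral_comp_comm
        ((hH.mul hPccont).intervalIntegrable (μ := volume) 0 (2 * Real.pi))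
    rw [h4, h1, Complex.ofReal_re]
  have hPk : ∀ k ∈ S, ∫ θ in (0 : ℝ)..(2 * Real.pi), P θ * EE k θ = ((2 * Real.pi * c k : ℝ) : ℂ) := by
    intro k hk
    have h2 : (fun θ => P θ * EE k θ) = fun θ => ∑ j ∈ S, (c j : ℂ) * EE (-j + k) θ := by
      funext θ
      simp only [hP, Finset.sum_mul]
      refine Finset.sum_congr rfl fun j _ => ?_
      rw [EE_add]
      ring
    rw [h2, intervalIntegral.integral_finsetSum]
    · simp only [intervalIntegral.integral_const_mul, EE_int]
      have h3 : ∀ j ∈ S, (c j : ℂ) * (if -j + k = 0 then ((2 * Real.pi : ℝ) : ℂ) else 0) =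
          if k = j then ((2 * Real.pi * c k : ℝ) : ℂ) else 0 := by
        intro j _
        by_cases hjk : k = j
        · subst hjk
          simp only [neg_add_cancel, if_true]
          push_cast
          ring
        · have : ¬ (-j + k = 0) := by omega
          rw [if_neg this, if_neg hjk, mul_zero]
      rw [Finset.sum_congr rfl h3, Finset.sum_ite_eq, if_pos hk]
    · intro j _
      exact (continuous_const.mul (EE_cont _)).intervalIntegrable _ _
  have hexp : ∀ θ, ‖K θ - P θ‖ ^ 2 = ‖K θ‖ ^ 2 - 2 * (K θ * Pc θ).re + (P θ * Pc θ).re := by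
    intro θ
    rw [← hconj θ, ← Complex.normSq_eq_norm_sq, ← Complex.normSq_eq_norm_sq, Complex.normSq_sub,
      Complex.mul_conj, Complex.ofReal_re]
    ring
  have h0 : 0 ≤ ∫ θ in (0 : ℝ)..(2 * Real.pi), ‖K θ - P θ‖ ^ 2 :=
    intervalIntegral.integral_nonneg (by positivity) fun θ _ => by positivity
  simp only [hexp] at h0
  have hKi : IntervalIntegrable (fun θ => ‖K θ‖ ^ 2) volume 0 (2 * Real.pi) :=
    (hK.norm.pow 2).intervalIntegrable _ _
  have hKP : IntervalIntegrable (fun θ => 2 * (K θ * Pc θ).re) volume 0 (2 * Real.pi) :=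
    (continuous_const.mul (Complex.continuous_re.comp (hK.mul hPccont))).intervalIntegrable _ _
  have hPP : IntervalIntegrable (fun θ => (P θ * Pc θ).re) volume 0 (2 * Real.pi) :=
    (Complex.continuous_re.comp (hPcont.mul hPccont)).intervalIntegrable _ _
  rw [intervalIntegral.integral_add (hKi.sub hKP) hPP, intervalIntegral.integral_sub hKi hKP,
    intervalIntegral.integral_const_mul, hI K hK h, hI P hPcont hPk] at h0
  have hpi : 0 < 2 * Real.pi := by positivity
  rw [one_div, inv_mul_eq_div, le_div_iff₀ hpi]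
  linarith

/-- the kernel as a function of the angle -/
noncomputable def KK (n : ℕ) (a b : ℝ) (θ : ℝ) : ℂ :=
  (n : ℂ) * (1 - (a : ℂ) * EE (-1) θ) ^ (n - 1) * (1 / (1 - (b : ℂ) * EE 1 θ) ^ (n + 1))

/-- the coefficients -/
noncomputable def DD (n : ℕ) (a b : ℝ) (k : ℤ) : ℝ :=
  ∑ l ∈ Finset.range n, if k ≤ (l : ℤ) then
    (n : ℝ) * ((n - 1).choose l : ℝ) * (-a) ^ l * ((((l : ℤ) - k).toNat + n).choose n : ℝ) *
      b ^ ((l : ℤ) - k).toNat else 0

lemma bE_lt {b : ℝ} (hb0 : 0 ≤ b) (hb1 : b < 1) (θ : ℝ) : ‖(b : ℂ) * EE 1 θ‖ < 1 := by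
  rw [norm_mul, EE_norm, mul_one, Complex.norm_real, Real.norm_eq_abs, abs_of_nonneg hb0]
  exact hb1

lemma KK_cont (n : ℕ) (a b : ℝ) (hb0 : 0 ≤ b) (hb1 : b < 1) : Continuous (KK n a b) := by
  unfold KK
  refine (continuous_const.mul ((continuous_const.sub (continuous_const.mul (EE_cont _))).pow _)).mul ?_
  refine continuous_const.div ((continuous_const.sub (continuous_const.mul (EE_cont _))).pow _) ?_
  intro θ h
  have h1 := eq_zero_of_pow_eq_zero h
  have h2 := bE_lt hb0 hb1 θ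
  rw [← sub_eq_zero.mp h1] at h2
  simp at h2

lemma KK_coeff (n : ℕ) (hn : 1 ≤ n) (a b : ℝ) (hb0 : 0 ≤ b) (hb1 : b < 1) (k : ℤ) :
    ∫ θ in (0 : ℝ)..(2 * Real.pi), KK n a b θ * EE k θ = ((2 * Real.pi * DD n a b k : ℝ) : ℂ) := by
  -- the terms of the series
  set F : ℕ → ℝ → ℂ := fun m θ =>
    (n : ℂ) * (1 - (a : ℂ) * EE (-1) θ) ^ (n - 1) * ((((m + n).choose n : ℕ) : ℂ) * ((b : ℂ) * EE 1 θ) ^ m) *
      EE k θ with hF
  have hFcont : ∀ m, Continuous (F m) := by
    intro m
    refine ((continuous_const.mul ((continuous_const.sub (continuous_const.mul (EE_cont _))).pow _)).mul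
      (continuous_const.mul ((continuous_const.mul (EE_cont _)).pow _))).mul (EE_cont _)
  set C : ℝ := (n : ℝ) * (1 + |a|) ^ (n - 1) with hC
  have hbound : ∀ m θ, ‖F m θ‖ ≤ C * (((m + n).choose n : ℝ) * b ^ m) := by
    intro m θ
    simp only [hF]
    rw [norm_mul, EE_norm, mul_one, norm_mul, norm_mul, norm_mul, norm_pow, norm_pow, norm_mul, EE_norm, mul_one,
      Complex.norm_natCast, Complex.norm_natCast, Complex.norm_real, Real.norm_eq_abs, abs_of_nonneg hb0]
    refine mul_le_mul_of_nonneg_right ?_ (by positivity)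
    refine mul_le_mul_of_nonneg_left ?_ (by positivity)
    refine pow_le_pow_left₀ (norm_nonneg _) ?_ _
    refine (norm_sub_le _ _).trans ?_
    rw [norm_mul, EE_norm, mul_one, norm_one, Complex.norm_real, Real.norm_eq_abs]
  have hbn : ‖b‖ < 1 := by rwa [Real.norm_eq_abs, abs_of_nonneg hb0]
  have hsumm : Summable (fun m : ℕ => C * (((m + n).choose n : ℝ) * b ^ m)) :=
    (summable_choose_mul_geometric_of_norm_lt_one n hbn).mul_left C
  have hHS : HasSum (fun m => ∫ θ in (0 : ℝ)..(2 * Real.pi), F m θ)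
      (∫ θ in (0 : ℝ)..(2 * Real.pi), KK n a b θ * EE k θ) := by
    refine intervalIntegral.hasSum_integral_of_dominated_convergence
      (fun m _ => C * (((m + n).choose n : ℝ) * b ^ m)) ?_ ?_ ?_ ?_ ?_
    · intro m
      exact (hFcont m).aestronglyMeasurable
    · intro m
      exact Eventually.of_forall fun θ _ => hbound m θ
    · exact Eventually.of_forall fun θ _ => hsumm
    · exact intervalIntegrable_const
    · refine Eventually.of_forall fun θ _ => ?_
      have h1 := hasSum_choose_mul_geometric_of_norm_lt_one n (bE_lt hb0 hb1 θ)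
      have h2 := (h1.mul_left ((n : ℂ) * (1 - (a : ℂ) * EE (-1) θ) ^ (n - 1))).mul_right (EE k θ)
      exact h2
  -- the integrals of the terms
  have hFint : ∀ m : ℕ, ∫ θ in (0 : ℝ)..(2 * Real.pi), F m θ =
      ∑ l ∈ Finset.range n, if (m : ℤ) + k = l then
        ((2 * Real.pi * ((n : ℝ) * ((n - 1).choose l : ℝ) * (-a) ^ l * ((m + n).choose n : ℝ) * b ^ m) : ℝ) : ℂ)
        else 0 := by
    intro m
    have h1 : F m = fun θ => ∑ l ∈ Finset.range n,
        (((n : ℝ) * ((n - 1).choose l : ℝ) * (-a) ^ l * ((m + n).choose n : ℝ) * b ^ m : ℝ) : ℂ) *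
          EE ((m : ℤ) + k - l) θ := by
      funext θ
      simp only [hF]
      have h2 : (1 - (a : ℂ) * EE (-1) θ) ^ (n - 1) =
          ∑ l ∈ Finset.range n, (-(a : ℂ)) ^ l * ((n - 1).choose l : ℂ) * EE (-l) θ := by
        have h3 : (1 - (a : ℂ) * EE (-1) θ) = (-(a : ℂ)) * EE (-1) θ + 1 := by ring
        rw [h3, add_pow, Nat.sub_add_cancel hn]
        refine Finset.sum_congr rfl fun l _ => ?_
        rw [one_pow, mul_one, mul_pow, EE_pow]
        have h4 : (l : ℤ) * (-1) = -(l : ℤ) := by ring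
        rw [h4]
        ring
      rw [h2, mul_pow, EE_pow, Finset.mul_sum, Finset.sum_mul, Finset.sum_mul]
      refine Finset.sum_congr rfl fun l _ => ?_
      have h5 : EE ((m : ℤ) + k - l) θ = EE (-l) θ * (EE (m * 1) θ * EE k θ) := by
        rw [← EE_add, ← EE_add]
        congr 1
        ring
      rw [h5]
      push_cast
      ring
    rw [h1, intervalIntegral.integral_finsetSum]
    · refine Finset.sum_congr rfl fun l _ => ?_
      rw [intervalIntegral.integral_const_mul, EE_int]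
      by_cases h : (m : ℤ) + k = l
      · rw [if_pos h, if_pos (by omega)]
        push_cast
        ring
      · rw [if_neg h, if_neg (by omega), mul_zero]
    · intro l _
      exact (continuous_const.mul (EE_cont _)).intervalIntegrable _ _
  simp only [hFint] at hHS
  have hHS2 : HasSum (fun m : ℕ => ∑ l ∈ Finset.range n, if (m : ℤ) + k = l then
        ((2 * Real.pi * ((n : ℝ) * ((n - 1).choose l : ℝ) * (-a) ^ l * ((m + n).choose n : ℝ) * b ^ m) : ℝ) : ℂ)
        else 0) (∑ l ∈ Finset.range n, if k ≤ (l : ℤ) then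
          ((2 * Real.pi * ((n : ℝ) * ((n - 1).choose l : ℝ) * (-a) ^ l *
            ((((l : ℤ) - k).toNat + n).choose n : ℝ) * b ^ ((l : ℤ) - k).toNat) : ℝ) : ℂ) else 0) := by
    refine hasSum_sum fun l _ => ?_
    by_cases h : k ≤ (l : ℤ)
    · rw [if_pos h]
      have h1 := hasSum_single (f := fun m : ℕ => if (m : ℤ) + k = l then
        ((2 * Real.pi * ((n : ℝ) * ((n - 1).choose l : ℝ) * (-a) ^ l * ((m + n).choose n : ℝ) * b ^ m) : ℝ) : ℂ)
        else 0) ((l : ℤ) - k).toNat (by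
          intro m hm
          rw [if_neg]
          intro h2
          apply hm
          omega)
      have h3 : ((((l : ℤ) - k).toNat : ℕ) : ℤ) + k = l := by omega
      simp only [h3, if_true] at h1
      exact h1
    · rw [if_neg h]
      have h2 : (fun m : ℕ => if (m : ℤ) + k = l then
        ((2 * Real.pi * ((n : ℝ) * ((n - 1).choose l : ℝ) * (-a) ^ l * ((m + n).choose n : ℝ) * b ^ m) : ℝ) : ℂ)
        else 0) = fun _ => 0 := by
        funext m
        rw [if_neg]
        omega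
      rw [h2]
      exact hasSum_zero
  rw [hHS.unique hHS2, DD]
  push_cast
  rw [Finset.mul_sum]
  refine Finset.sum_congr rfl fun l _ => ?_
  split_ifs
  · push_cast
    ring
  · simp

lemma binom_id (m b j : ℕ) :
    ((m + b + 1 + j : ℕ) : ℝ) * ((m + b + j).choose (m + b) : ℝ) *
        ((m + (m + b + 1 + j)).choose (m + b + 1 + j) : ℝ) =
      ((m + 1 + j : ℕ) : ℝ) * ((m + j).choose m : ℝ) * (((m + 1 + j) + (b + m)).choose (m + 1 + j) : ℝ) := by
  have e1 : ((m + (m + b + 1 + j)).choose (m + b + 1 + j)) = ((m + b + 1 + j) + m).choose (m + b + 1 + j) := by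
    rw [add_comm m (m + b + 1 + j)]
  rw [e1, Nat.cast_add_choose, Nat.cast_add_choose, Nat.cast_add_choose, Nat.cast_add_choose]
  have f1 : ((m + b + 1 + j).factorial : ℝ) = ((m + b + 1 + j : ℕ) : ℝ) * ((m + b + j).factorial : ℝ) := by
    rw [show m + b + 1 + j = (m + b + j) + 1 by ring, Nat.factorial_succ]
    push_cast
    ring
  have f2 : ((m + 1 + j).factorial : ℝ) = ((m + 1 + j : ℕ) : ℝ) * ((m + j).factorial : ℝ) := by
    rw [show m + 1 + j = (m + j) + 1 by ring, Nat.factorial_succ]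
    push_cast
    ring
  have e2 : (m + b + 1 + j) + m = (m + 1 + j) + (b + m) := by ring
  have e3 : m + b = b + m := by ring
  rw [e2, f1, f2, e3]
  have g1 : (((b + m).factorial : ℕ) : ℝ) ≠ 0 := by positivity
  have g2 : ((m.factorial : ℕ) : ℝ) ≠ 0 := by positivity
  have g3 : ((j.factorial : ℕ) : ℝ) ≠ 0 := by positivity
  have g4 : (((b + m + j).factorial : ℕ) : ℝ) ≠ 0 := by positivity
  have g5 : (((m + j).factorial : ℕ) : ℝ) ≠ 0 := by positivity
  have g6 : ((b + m + 1 + j : ℕ) : ℝ) ≠ 0 := by positivity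
  have g7 : ((m + 1 + j : ℕ) : ℝ) ≠ 0 := by positivity
  field_simp

lemma DD_sq (n : ℕ) (hn : 1 ≤ n) (t v : ℝ) (ht : 0 < t) (hv : 0 ≤ v) (k : ℤ) (hk : k ≤ n) :
    (DD n (Real.sqrt v / Real.sqrt t) (Real.sqrt v * Real.sqrt t) k) ^ 2 = (QQ n k v) ^ 2 * t ^ (-k) := by
  have hst : Real.sqrt t ≠ 0 := (Real.sqrt_pos.mpr ht).ne'
  have hsv : Real.sqrt v * Real.sqrt v = v := Real.mul_self_sqrt hv
  have hstt : Real.sqrt t * Real.sqrt t = t := Real.mul_self_sqrt ht.le
  rcases le_or_gt k 0 with h0 | h0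
  · -- `k = -b`
    obtain ⟨b, hb⟩ : ∃ b : ℕ, k = -(b : ℤ) := ⟨(-k).toNat, by omega⟩
    subst hb
    have hD : DD n (Real.sqrt v / Real.sqrt t) (Real.sqrt v * Real.sqrt t) (-(b : ℤ)) =
        (-1) ^ n * Real.sqrt t ^ b * QQ n (-(b : ℤ)) v := by
      unfold DD QQ qq pp
      have e1 : (-(b : ℤ)).natAbs = b := by simp
      have e2 : n - (-(b : ℤ)).toNat = n := by simp
      rw [e1, e2, Finset.mul_sum, Finset.mul_sum]
      refine Finset.sum_congr rfl fun l _ => ?_
      rw [if_pos (by omega)]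
      have e3 : ((l : ℤ) - -(b : ℤ)).toNat = l + b := by omega
      rw [e3]
      unfold cc
      have e4 : l + b + n = n + b + l := by ring
      rw [e4]
      have e5 : (-(Real.sqrt v / Real.sqrt t)) ^ l * (Real.sqrt v * Real.sqrt t) ^ (l + b) =
          (-1) ^ l * (Real.sqrt v ^ b * Real.sqrt t ^ b * v ^ l) := by
        have e6 : (-(Real.sqrt v / Real.sqrt t)) ^ l = (-1) ^ l * (Real.sqrt v / Real.sqrt t) ^ l := by
          rw [← neg_one_mul, mul_pow]
        have e7 : v ^ l = Real.sqrt v ^ l * Real.sqrt v ^ l := by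
          rw [← mul_pow, hsv]
        rw [e6, e7, div_pow, mul_pow, pow_add, pow_add]
        field_simp
      have e8 : ((-1 : ℝ)) ^ l = (-1) ^ n * (-1) ^ (n + l) := by
        rw [← pow_add, show n + (n + l) = 2 * n + l by ring, pow_add, pow_mul]
        norm_num
      calc (n : ℝ) * ((n - 1).choose l : ℝ) * (-(Real.sqrt v / Real.sqrt t)) ^ l * ((n + b + l).choose n : ℝ) *
            (Real.sqrt v * Real.sqrt t) ^ (l + b)
          = (n : ℝ) * ((n - 1).choose l : ℝ) * ((n + b + l).choose n : ℝ) *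
            ((-(Real.sqrt v / Real.sqrt t)) ^ l * (Real.sqrt v * Real.sqrt t) ^ (l + b)) := by ring
        _ = _ := by
          rw [e5, e8]
          ring
    rw [hD, neg_neg, zpow_natCast]
    have e9 : t ^ b = Real.sqrt t ^ b * Real.sqrt t ^ b := by rw [← mul_pow, hstt]
    have e10 : ((-1 : ℝ)) ^ n * (-1) ^ n = 1 := by rw [← mul_pow]; norm_num
    rw [e9]
    calc ((-1) ^ n * Real.sqrt t ^ b * QQ n (-(b : ℤ)) v) ^ 2
        = ((-1) ^ n * (-1) ^ n) * (QQ n (-(b : ℤ)) v ^ 2 * (Real.sqrt t ^ b * Real.sqrt t ^ b)) := by ring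
      _ = _ := by rw [e10, one_mul]
  · -- `k = b > 0`
    obtain ⟨b, hb⟩ : ∃ b : ℕ, k = (b : ℤ) := ⟨k.toNat, by omega⟩
    subst hb
    have hbn : b ≤ n := by omega
    have hD : DD n (Real.sqrt v / Real.sqrt t) (Real.sqrt v * Real.sqrt t) (b : ℤ) =
        (-1) ^ n * (Real.sqrt t ^ b)⁻¹ * QQ n (b : ℤ) v := by
      unfold DD QQ qq pp
      have e1 : ((b : ℤ)).natAbs = b := by simp
      have e2 : n - ((b : ℤ)).toNat = n - b := by simp
      rw [e1, e2, Finset.mul_sum, Finset.mul_sum]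
      have hsplit : ∀ f : ℕ → ℝ, (∑ l ∈ Finset.range n, if (b : ℤ) ≤ (l : ℤ) then f l else 0) =
          ∑ m ∈ Finset.range (n - b), f (b + m) := by
        intro f
        rw [← Finset.sum_filter]
        have : (Finset.range n).filter (fun l : ℕ => (b : ℤ) ≤ (l : ℤ)) = Finset.Ico b n := by
          ext l
          simp only [Finset.mem_filter, Finset.mem_range, Finset.mem_Ico]
          omega
        rw [this, Finset.sum_Ico_eq_sum_range]
      rw [hsplit]
      refine Finset.sum_congr rfl fun m hm => ?_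
      have hm' := Finset.mem_range.mp hm
      obtain ⟨j, hj⟩ : ∃ j : ℕ, n = m + b + 1 + j := ⟨n - (m + b + 1), by omega⟩
      have e3 : (((b + m : ℕ) : ℤ) - (b : ℤ)).toNat = m := by omega
      rw [e3]
      unfold cc
      have hbin := binom_id m b j
      have i1 : n - 1 = m + b + j := by omega
      have i2 : b + m = m + b := by ring
      have i3 : m + n = m + (m + b + 1 + j) := by omega
      have i4 : n - b = m + 1 + j := by omega
      have i5 : n - b - 1 = m + j := by omega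
      have i6 : n - b + b + m = (m + 1 + j) + (b + m) := by omega
      rw [i5, i6, i4, i1, i3]
      have e5 : (-(Real.sqrt v / Real.sqrt t)) ^ (b + m) * (Real.sqrt v * Real.sqrt t) ^ m =
          (-1) ^ (b + m) * (Real.sqrt v ^ b * (Real.sqrt t ^ b)⁻¹ * v ^ m) := by
        have e6 : (-(Real.sqrt v / Real.sqrt t)) ^ (b + m) = (-1) ^ (b + m) * (Real.sqrt v / Real.sqrt t) ^ (b + m) := by
          rw [← neg_one_mul, mul_pow]
        have e7 : v ^ m = Real.sqrt v ^ m * Real.sqrt v ^ m := by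
          rw [← mul_pow, hsv]
        rw [e6, e7, div_pow, mul_pow, pow_add (Real.sqrt v), pow_add (Real.sqrt t)]
        field_simp
      have e8 : ((-1 : ℝ)) ^ (b + m) = (-1) ^ n * (-1) ^ (m + 1 + j + m) := by
        have e9 : ((-1 : ℝ)) ^ (2 * (m + 1 + j) + (b + m)) = (-1) ^ (b + m) := by
          rw [pow_add (-1 : ℝ) (2 * (m + 1 + j)), pow_mul]
          norm_num
        rw [hj, ← pow_add, show m + b + 1 + j + (m + 1 + j + m) = 2 * (m + 1 + j) + (b + m) by ring, e9]
      have hn' : (n : ℝ) = ((m + b + 1 + j : ℕ) : ℝ) := by rw [hj]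
      calc (n : ℝ) * ((m + b + j).choose (b + m) : ℝ) * (-(Real.sqrt v / Real.sqrt t)) ^ (b + m) *
            ((m + (m + b + 1 + j)).choose n : ℝ) * (Real.sqrt v * Real.sqrt t) ^ m
          = ((n : ℝ) * ((m + b + j).choose (b + m) : ℝ) * ((m + (m + b + 1 + j)).choose n : ℝ)) *
            ((-(Real.sqrt v / Real.sqrt t)) ^ (b + m) * (Real.sqrt v * Real.sqrt t) ^ m) := by ring
        _ = (((m + 1 + j : ℕ) : ℝ) * ((m + j).choose m : ℝ) * (((m + 1 + j) + (b + m)).choose (m + 1 + j) : ℝ)) *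
            ((-1) ^ (b + m) * (Real.sqrt v ^ b * (Real.sqrt t ^ b)⁻¹ * v ^ m)) := by
          rw [e5, ← hbin, hn', i2]
          congr 3
          rw [hj]
        _ = _ := by
          rw [e8]
          ring
    rw [hD, zpow_neg, zpow_natCast]
    have e9 : t ^ b = Real.sqrt t ^ b * Real.sqrt t ^ b := by rw [← mul_pow, hstt]
    have e10 : ((-1 : ℝ)) ^ n * (-1) ^ n = 1 := by rw [← mul_pow]; norm_num
    rw [e9, mul_inv]
    calc ((-1) ^ n * (Real.sqrt t ^ b)⁻¹ * QQ n (b : ℤ) v) ^ 2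
        = ((-1) ^ n * (-1) ^ n) * (QQ n (b : ℤ) v ^ 2 * ((Real.sqrt t ^ b)⁻¹ * (Real.sqrt t ^ b)⁻¹)) := by ring
      _ = _ := by rw [e10, one_mul]

/-- Bessel's inequality for the kernel -/
theorem n1 : S_N1 := by
  intro n t v S hn ht ht1 hv hv1 hS
  set a := Real.sqrt v / Real.sqrt t with ha
  set b := Real.sqrt v * Real.sqrt t with hb
  have hb0 : 0 ≤ b := by positivity
  have hb1 : b < 1 := by
    have h1 : Real.sqrt v ≤ 1 := Real.sqrt_le_one.mpr hv1
    have h2 : Real.sqrt t < 1 := by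
      rw [Real.sqrt_lt' one_pos]
      simpa using ht1
    calc b = Real.sqrt v * Real.sqrt t := hb
      _ ≤ 1 * Real.sqrt t := mul_le_mul_of_nonneg_right h1 (Real.sqrt_nonneg t)
      _ < 1 := by rwa [one_mul]
  have hB := bessel (KK n a b) (KK_cont n a b hb0 hb1) S (DD n a b) (fun k _ => KK_coeff n hn a b hb0 hb1 k)
  have h1 : ∑ k ∈ S, (QQ n k v) ^ 2 * t ^ (-k) = ∑ k ∈ S, DD n a b k ^ 2 :=
    Finset.sum_congr rfl fun k hk => (DD_sq n hn t v ht hv k (hS k hk)).symm
  rw [h1]
  refine hB.trans (le_of_eq ?_)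
  congr 1
  refine intervalIntegral.integral_congr fun θ _ => ?_
  simp only [KK, ker2]
  have hE1 : EE 1 θ = Complex.exp (θ * Complex.I) := by
    unfold EE
    congr 1
    push_cast
    ring
  have hnorm : ‖1 - (a : ℂ) * EE (-1) θ‖ = ‖1 - (a : ℂ) * EE 1 θ‖ := by
    have h2 : (starRingEnd ℂ) (1 - (a : ℂ) * EE 1 θ) = 1 - (a : ℂ) * EE (-1) θ := by
      rw [map_sub, map_one, map_mul, Complex.conj_ofReal, EE_conj]
    rw [← h2]
    exact Complex.norm_conj _
  rw [norm_mul, norm_mul, norm_div, norm_one, norm_pow, norm_pow, Complex.norm_natCast, hnorm, hE1, mul_pow,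
    mul_pow, div_pow, one_pow, ← pow_mul, ← pow_mul]
  rw [mul_comm (n - 1) 2, mul_comm (n + 1) 2]
  ring

end Pool.Agent.Q65.BA
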